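import Pool.Agent.H4.SCF.NP
import Pool.Agent.H2.SC.Targets
import Pool.Agent.H25.LF.FIN2

/-!
# MP_04ff0f_nt, SmallCofactors: the splits
-/

set_option autoImplicit false

open Finset Real Filter

namespace Pool.Agent.H4.SCF

open Pool.Agent.H30.PF
open Pool.Agent.H5.SC (T_RO T_SA T_SB sm)
open Pool.Agent.H2.SC (BR FW T_WM)

open Classical in
/-- FIN. The splits. -/
def T_FIN : Prop := ∀ η δ : ℝ, 0 < η → 0 < δ → ∃ R C : ℝ, 0 < R ∧ 0 < C ∧
  ∀ (t₁ t₂ : ℝ) (r₁ r₂ : ℕ), 2 ≤ r₁ → 2 ≤ r₂ → 0 < t₁ → t₁ < 2 → 0 < t₂ → t₂ < 2 →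
  ∃ n₀ : ℕ, ∀ n : ℕ, n₀ ≤ n →
    (1 - FW t₁ r₁ - FW t₂ r₂ - δ) * n ≤ (((Icc 1 (n - 1)).filter (fun k =>
      HD r₁ ((n : ℝ) ^ t₁) (pr k ^ 2 - 2) ∧ HD r₂ ((n : ℝ) ^ t₂) (pr (n - k) ^ 2 - 2) ∧
      NP ((n : ℝ) ^ η) ((n : ℝ) ^ (1 / R)) R (pr k ^ 2 - 2) ∧
      NP ((n : ℝ) ^ η) ((n : ℝ) ^ (1 / R)) R (pr (n - k) ^ 2 - 2) ∧
      NP ((n : ℝ) ^ η) ((n : ℝ) ^ (log (log (log n)) / (C * log (log n))))
        (C * log (log n) / log (log (log n))) (pr (pr (n - k)) ^ 2 - 2))).card : ℝ)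

/-- the indices without a large divisor inject into `BR` -/
lemma card_br (n r : ℕ) (t : ℝ) (ht : 0 < t) (f : ℕ → ℕ)
    (hf : ∀ k ∈ Icc 1 (n - 1), 1 ≤ f k ∧ f k ≤ n)
    (hinj : ∀ k ∈ Icc 1 (n - 1), ∀ k' ∈ Icc 1 (n - 1), f k = f k' → k = k') :
    (open Classical in ((Icc 1 (n - 1)).filter (fun k =>
      ¬ HD r ((n : ℝ) ^ t) (pr (f k) ^ 2 - 2))).card) ≤ (BR (pr n) t r).card := by
  classical
  apply Finset.card_le_card_of_injOn (fun k => pr (f k))
  · intro k hk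
    rw [Finset.mem_coe, Finset.mem_filter] at hk
    obtain ⟨hk1, hk2⟩ := hk
    obtain ⟨h1, h2⟩ := hf k hk1
    have hn : 1 ≤ n := h1.trans h2
    rw [Finset.mem_coe, BR, Finset.mem_filter, Pool.Agent.H25.LF.PR, Finset.mem_filter,
      Finset.mem_Icc]
    refine ⟨⟨⟨(pr_prime _).one_le, ?_⟩, pr_prime _⟩, ?_⟩
    · rw [Nat.floor_natCast]
      exact pr_mono h2
    · intro d hd hdr
      by_contra hcon
      push Not at hcon
      apply hk2
      refine ⟨d, hd, ?_, lt_of_le_of_lt ?_ hcon⟩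
      · rwa [ArithmeticFunction.cardFactors_apply] at hdr
      · apply Real.rpow_le_rpow (Nat.cast_nonneg n) _ ht.le
        exact_mod_cast (Nat.le_succ n).trans (le_pr hn)
  · intro k hk k' hk' h
    rw [Finset.mem_coe, Finset.mem_filter] at hk hk'
    exact hinj k hk.1 k' hk'.1 (pr_inj (hf k hk.1).1 (hf k' hk'.1).1 h)

/-- the exponent of the third number -/
lemma expo {c L M l m : ℝ} (hc : 0 < c) (hL : 1 ≤ L) (hM : M ≤ 2 * L) (hM0 : 0 < M) (hl : 0 < l)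
    (hlm : l ≤ m) : l / (4 / c * L) ≤ c * m / M := by
  have h1 : l / (4 / c * L) = c * l / (4 * L) := by
    field_simp
  rw [h1, div_le_div_iff₀ (by linarith) hM0]
  have h2 : c * l ≤ c * m := mul_le_mul_of_nonneg_left hlm hc.le
  have h3 : M ≤ 4 * L := by linarith
  have h4 : 0 < c * l := by positivity
  calc c * l * M ≤ c * l * (4 * L) := mul_le_mul_of_nonneg_left h3 h4.le
    _ ≤ c * m * (4 * L) := mul_le_mul_of_nonneg_right h2 (by linarith)

lemma expo2 {c L M l m : ℝ} (hc : 0 < c) (hL : 1 ≤ L) (hM : M ≤ 2 * L) (hM0 : 0 < M) (hl : 0 < l)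
    (hlm : l ≤ m) : 2 / (c * m / M) ≤ 4 / c * L / l := by
  have hm : 0 < m := hl.trans_le hlm
  have h1 : 2 / (c * m / M) = 2 * M / (c * m) := by
    field_simp
  have h2 : 4 / c * L / l = 4 * L / (c * l) := by
    field_simp
  rw [h1, h2]
  calc 2 * M / (c * m) ≤ 4 * L / (c * m) :=
        div_le_div_of_nonneg_right (by linarith) (by positivity)
    _ ≤ 4 * L / (c * l) :=
        div_le_div_of_nonneg_left (by positivity) (by positivity)
          (mul_le_mul_of_nonneg_left hlm hc.le)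

lemma NP_two {A y R : ℝ} (hA : 2 ≤ A) (hR : 0 ≤ R) : NP A y R (2 ^ 2 - 2) := by
  refine ⟨2, 1, by norm_num, by exact_mod_cast hA, ?_, ?_⟩
  · intro q hq hd
    exact absurd (Nat.dvd_one.1 hd) hq.one_lt.ne'
  · rw [Nat.primeFactorsList_one, List.length_nil]
    exact_mod_cast hR

/-- six sets -/
lemma card_five {α : Type} [DecidableEq α] {K G E1 E2 E3 E4 E5 : Finset α}
    (h : K ⊆ G ∪ (E1 ∪ (E2 ∪ (E3 ∪ (E4 ∪ E5))))) :
    (K.card : ℝ) ≤ G.card + (E1.card + (E2.card + (E3.card + (E4.card + E5.card)))) := by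
  have h1 := (card_le_card h).trans ((card_union_le _ _).trans
    (Nat.add_le_add_left ((card_union_le _ _).trans
      (Nat.add_le_add_left ((card_union_le _ _).trans
        (Nat.add_le_add_left ((card_union_le _ _).trans
          (Nat.add_le_add_left (card_union_le _ _) _)) _)) _)) _))
  exact_mod_cast h1

/-- positive proportion: the size -/
lemma size_a {C n x ε δ' : ℝ} (hC : 0 < C) (hn : 1 < log n) (hn0 : 0 < n) (hε : ε = δ' / C)
    (hδ' : 0 ≤ δ') (hx : x ≤ C * n * log n) (hlx : log n ≤ log x) :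
    ε * x / log x ≤ δ' * n := by
  have hl : 0 < log x := by linarith
  rw [div_le_iff₀ hl, hε]
  have h1 : δ' / C * x ≤ δ' / C * (C * n * log n) :=
    mul_le_mul_of_nonneg_left hx (by positivity)
  have h2 : δ' / C * (C * n * log n) = δ' * n * log n := by
    field_simp
  rw [h2] at h1
  exact h1.trans (mul_le_mul_of_nonneg_left hlx (by positivity))

/-- large deviations: the size -/
lemma size_b {A n X δ' : ℝ} (hA : 0 < A) (hn : 1 < log n) (hn0 : 0 < n) (hδ' : 0 < δ')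
    (hX : X ≤ A * n * (log n) ^ (2 : ℕ)) (hlX : log n ≤ log X) (hlarge : A / δ' ≤ log n) :
    X / (log X) ^ (5 : ℝ) ≤ δ' * n := by
  have hl : 0 < log n := by linarith
  have hlX0 : 0 < log X := by linarith
  have h0 : (log X) ^ (5 : ℝ) = (log X) ^ (5 : ℕ) := by
    rw [← rpow_natCast]
    norm_num
  rw [h0, div_le_iff₀ (by positivity)]
  have h1 : (log n) ^ (5 : ℕ) ≤ (log X) ^ (5 : ℕ) := pow_le_pow_left₀ hl.le hlX 5
  have h2 : A ≤ δ' * log n := by
    rw [div_le_iff₀ hδ'] at hlarge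
    linarith
  have h3 : A * (log n) ^ (2 : ℕ) ≤ δ' * (log n) ^ (5 : ℕ) := by
    calc A * (log n) ^ (2 : ℕ) ≤ δ' * log n * (log n) ^ (2 : ℕ) :=
          mul_le_mul_of_nonneg_right h2 (by positivity)
      _ = δ' * (log n) ^ (3 : ℕ) := by ring
      _ ≤ δ' * (log n) ^ (5 : ℕ) :=
          mul_le_mul_of_nonneg_left (pow_le_pow_right₀ hn.le (by norm_num)) hδ'.le
  calc X ≤ A * n * (log n) ^ (2 : ℕ) := hX
    _ = n * (A * (log n) ^ (2 : ℕ)) := by ring
    _ ≤ n * (δ' * (log n) ^ (5 : ℕ)) := mul_le_mul_of_nonneg_left h3 hn0.le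
    _ ≤ n * (δ' * (log X) ^ (5 : ℕ)) := by gcongr
    _ = δ' * n * (log X) ^ (5 : ℕ) := by ring

end Pool.Agent.H4.SCF
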