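import Pool.Agent.H4.SCF.Fin

/-!
# MP_04ff0f_nt, SmallCofactors: the splits, proof
-/

set_option autoImplicit false

open Finset Real Filter

namespace Pool.Agent.H4.SCF

open Pool.Agent.H30.PF
open Pool.Agent.H5.SC (T_RO T_SA T_SB sm)
open Pool.Agent.H2.SC (BR FW T_WM)

/-- few bad primes for the first two numbers -/
lemma bad_a (hRO : T_RO) {η δ' C : ℝ} (hC : 0 < C) {ε' θ : ℝ} {x₁ n x : ℕ} (hθ : 0 < θ)
    (hη : 0 < η)
    (hSA : ∀ x y : ℕ, x₁ ≤ x → (y : ℝ) ≤ (x : ℝ) ^ θ →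
      (((Icc 3 x).filter (fun p => p.Prime ∧ (x : ℝ) ^ (η / 2) <
        (sm y (p ^ 2 - 2) : ℝ))).card : ℝ) ≤ ε' * x / log x)
    (hε' : ε' = δ' / C) (hδ' : 0 ≤ δ') (hx₁ : x₁ ≤ x) (hn0 : (0 : ℝ) < n)
    (hln : 1 < log (n : ℝ)) (hxC : (x : ℝ) ≤ C * n * log n) (hnx : (n : ℝ) ≤ x)
    (hlx : log (n : ℝ) ≤ log x) (hxn : (x : ℝ) ≤ n * n) (h2 : (2 : ℝ) ≤ (n : ℝ) ^ η)
    (f : ℕ → ℕ) (hf : ∀ k ∈ Icc 1 (n - 1), (f k).Prime) (hX : ∀ k ∈ Icc 1 (n - 1), f k ≤ x)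
    (hinj : ∀ k ∈ Icc 1 (n - 1), ∀ l ∈ Icc 1 (n - 1), f k = f l → k = l) :
    (open Classical in (((Icc 1 (n - 1)).filter (fun k =>
      ¬ NP ((n : ℝ) ^ η) ((n : ℝ) ^ (1 / (2 / θ))) (2 / θ) (f k ^ 2 - 2))).card : ℝ)) ≤
        δ' * n := by
  classical
  have hn1 : (1 : ℝ) < n := by
    by_contra hcon
    have h3 : log (n : ℝ) ≤ 0 := log_nonpos hn0.le (not_lt.1 hcon)
    linarith
  have hx1 : (1 : ℝ) < x := hn1.trans_le hnx
  set y : ℕ := ⌊(x : ℝ) ^ θ⌋₊ with hy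
  have hy1 : (y : ℝ) ≤ (x : ℝ) ^ θ := Nat.floor_le (rpow_nonneg (by linarith) _)
  have hy2 : (x : ℝ) ^ θ < (y : ℝ) + 1 := Nat.lt_floor_add_one _
  have h3 := hSA x y hx₁ hy1
  have h4 := card_idx (X := x) (n := n) f
    (fun q => ¬ NP ((n : ℝ) ^ η) ((n : ℝ) ^ (1 / (2 / θ))) (2 / θ) (q ^ 2 - 2))
    (fun q => (x : ℝ) ^ (η / 2) < (sm y (q ^ 2 - 2) : ℝ)) hf hX hinj
    (fun h => h (NP_two h2 (by positivity)))
    (fun q hq hq3 hqx hP => by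
      by_contra hcon
      push Not at hcon
      refine hP (NP_mono le_rfl ?_ le_rfl (NP_of_sm hRO hx1 hθ (by omega) hqx hy2
        (hcon.trans ?_)))
      · have h5 : (n : ℝ) ^ (1 / (2 / θ)) ≤ (n : ℝ) ^ θ := by
          apply rpow_le_rpow_of_exponent_le hn1.le
          rw [one_div_div]
          linarith
        exact h5.trans (rpow_le_rpow hn0.le hnx hθ.le)
      · have h5 : (x : ℝ) ^ (η / 2) ≤ ((n : ℝ) * n) ^ (η / 2) :=
          rpow_le_rpow (by linarith) hxn (by linarith)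
        refine h5.trans (le_of_eq ?_)
        rw [mul_rpow hn0.le hn0.le, ← rpow_add hn0]
        ring_nf)
  exact (h4.trans h3).trans (size_a hC hln hn0 hε' hδ' hxC hlx)

/-- few bad primes for the third number -/
lemma bad_b (hRO : T_RO) {η δ' A c : ℝ} (hA : 0 < A) {x₁ n X : ℕ} (hc : 0 < c)
    (hη : 0 < η)
    (hSB : ∀ x y : ℕ, x₁ ≤ x → (y : ℝ) ≤ (x : ℝ) ^ (c * log (log (log x)) / log (log x)) →
      (((Icc 3 x).filter (fun p => p.Prime ∧ (x : ℝ) ^ (η / 2) <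
        (sm y (p ^ 2 - 2) : ℝ))).card : ℝ) ≤ x / (log x) ^ (5 : ℝ))
    (hδ' : 0 < δ') (hx₁ : x₁ ≤ X) (hn0 : (0 : ℝ) < n)
    (hln : 1 < log (n : ℝ)) (hL : 1 < log (log (n : ℝ)))
    (hXA : (X : ℝ) ≤ A * n * (log n) ^ (2 : ℕ)) (hnX : (n : ℝ) ≤ X)
    (hlX : log (n : ℝ) ≤ log X) (hlX2 : log (X : ℝ) ≤ 2 * log n)
    (hXn : (X : ℝ) ≤ n * n) (h2 : (2 : ℝ) ≤ (n : ℝ) ^ η) (hlarge : A / δ' ≤ log n)
    (f : ℕ → ℕ) (hf : ∀ k ∈ Icc 1 (n - 1), (f k).Prime) (hX : ∀ k ∈ Icc 1 (n - 1), f k ≤ X)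
    (hinj : ∀ k ∈ Icc 1 (n - 1), ∀ l ∈ Icc 1 (n - 1), f k = f l → k = l) :
    (open Classical in (((Icc 1 (n - 1)).filter (fun k =>
      ¬ NP ((n : ℝ) ^ η) ((n : ℝ) ^ (log (log (log n)) / (4 / c * log (log n))))
        (4 / c * log (log n) / log (log (log n))) (f k ^ 2 - 2))).card : ℝ)) ≤ δ' * n := by
  classical
  have hn1 : (1 : ℝ) < n := by
    by_contra hcon
    have h3 : log (n : ℝ) ≤ 0 := log_nonpos hn0.le (not_lt.1 hcon)
    linarith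
  have hX1 : (1 : ℝ) < X := hn1.trans_le hnX
  have hll : 0 < log (log (log (n : ℝ))) := log_pos hL
  have hLX : log (log (n : ℝ)) ≤ log (log (X : ℝ)) := log_le_log (by linarith) hlX
  have hLX2 : log (log (X : ℝ)) ≤ 2 * log (log (n : ℝ)) := by
    have h3 := loglog_le hln (by linarith) hlX2
    have h4 : log 2 ≤ 1 := by
      have := log_two_lt_d9
      linarith
    linarith
  have hlll : log (log (log (n : ℝ))) ≤ log (log (log (X : ℝ))) :=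
    log_le_log (by linarith) hLX
  set θ : ℝ := c * log (log (log (X : ℝ))) / log (log (X : ℝ)) with hθd
  have hθ : 0 < θ := by
    rw [hθd]
    have h3 : 0 < log (log (log (X : ℝ))) := hll.trans_le hlll
    have h4 : 0 < log (log (X : ℝ)) := by linarith
    positivity
  set y : ℕ := ⌊(X : ℝ) ^ θ⌋₊ with hy
  have hy1 : (y : ℝ) ≤ (X : ℝ) ^ θ := Nat.floor_le (rpow_nonneg (by linarith) _)
  have hy2 : (X : ℝ) ^ θ < (y : ℝ) + 1 := Nat.lt_floor_add_one _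
  have h3 := hSB X y hx₁ hy1
  have e1 := expo (c := c) (L := log (log (n : ℝ))) (M := log (log (X : ℝ)))
    (l := log (log (log (n : ℝ)))) (m := log (log (log (X : ℝ)))) hc hL.le hLX2 (by linarith)
    hll hlll
  have e2 := expo2 (c := c) (L := log (log (n : ℝ))) (M := log (log (X : ℝ)))
    (l := log (log (log (n : ℝ)))) (m := log (log (log (X : ℝ)))) hc hL.le hLX2 (by linarith)
    hll hlll
  have h4 := card_idx (X := X) (n := n) f
    (fun q => ¬ NP ((n : ℝ) ^ η) ((n : ℝ) ^ (log (log (log n)) / (4 / c * log (log n))))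
        (4 / c * log (log n) / log (log (log n))) (q ^ 2 - 2))
    (fun q => (X : ℝ) ^ (η / 2) < (sm y (q ^ 2 - 2) : ℝ)) hf hX hinj
    (fun h => h (NP_two h2 (by
      have : 0 < log (log (n : ℝ)) := by linarith
      positivity)))
    (fun q hq hq3 hqx hP => by
      by_contra hcon
      push Not at hcon
      refine hP (NP_mono le_rfl ?_ e2 (NP_of_sm hRO hX1 hθ (by omega) hqx hy2
        (hcon.trans ?_)))
      · exact (rpow_le_rpow_of_exponent_le hn1.le e1).trans (rpow_le_rpow hn0.le hnX hθ.le)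
      · have h5 : (X : ℝ) ^ (η / 2) ≤ ((n : ℝ) * n) ^ (η / 2) :=
          rpow_le_rpow (by linarith) hXn (by linarith)
        refine h5.trans (le_of_eq ?_)
        rw [mul_rpow hn0.le hn0.le, ← rpow_add hn0]
        ring_nf)
  exact (h4.trans h3).trans (size_b hA hln hn0 hδ' hXA hlX hlarge)

theorem pf_FIN (hWM : T_WM) (hSA : T_SA) (hSB : T_SB) (hRO : T_RO) (hPN : T_PN) : T_FIN := by
  classical
  intro η δ hη hδ
  obtain ⟨C, hC, hPN⟩ := hPN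
  obtain ⟨θ, x₁, hθ, hSA⟩ := hSA (η / 2) (δ / 16 / C) (by linarith) (by positivity)
  obtain ⟨c, x₂, hc, hSB⟩ := hSB (η / 2) 5 (by linarith) (by norm_num)
  refine ⟨2 / θ, 4 / c, by positivity, by positivity, ?_⟩
  intro t₁ t₂ r₁ r₂ hr1 hr2 ht1 ht1' ht2 ht2'
  have hr1' : (2 : ℝ) ≤ r₁ := by exact_mod_cast hr1
  have hr2' : (2 : ℝ) ≤ r₂ := by exact_mod_cast hr2
  obtain ⟨x₃, hW1⟩ := hWM t₁ (δ / 16) r₁ (by omega) ht1 ht1' (by linarith) (by linarith)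
  obtain ⟨x₄, hW2⟩ := hWM t₂ (δ / 16) r₂ (by omega) ht2 ht2' (by linarith) (by linarith)
  have hev : ∀ᶠ n : ℕ in atTop, x₁ ≤ n ∧ x₂ ≤ n ∧ x₃ ≤ n ∧ x₄ ≤ n ∧ 2 ≤ n ∧
      1 < log (n : ℝ) ∧ 1 < log (log (n : ℝ)) ∧ C * (log (n : ℝ)) ^ 1 ≤ n ∧
      2 * C ^ 2 * (log (n : ℝ)) ^ 2 ≤ n ∧ 2 * C ^ 2 / (δ / 16) ≤ log (n : ℝ) ∧
      (2 : ℝ) ≤ (n : ℝ) ^ η ∧ 16 / δ ≤ (n : ℝ) := by
    filter_upwards [eventually_ge_atTop x₁, eventually_ge_atTop x₂, eventually_ge_atTop x₃,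
      eventually_ge_atTop x₄, eventually_ge_atTop 2, tends_log.eventually_gt_atTop 1,
      tends_loglog.eventually_gt_atTop 1, ev_log_pow C 1, ev_log_pow (2 * C ^ 2) 2,
      tends_log.eventually_ge_atTop (2 * C ^ 2 / (δ / 16)),
      ((tendsto_rpow_atTop hη).comp tendsto_natCast_atTop_atTop).eventually_ge_atTop 2,
      tendsto_natCast_atTop_atTop.eventually_ge_atTop (16 / δ)]
      with n a1 a2 a3 a4 a5 a6 a7 a8 a9 a10 a11 a12
    exact ⟨a1, a2, a3, a4, a5, a6, a7, a8, a9, a10, a11, a12⟩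
  obtain ⟨n₀, hn₀⟩ := eventually_atTop.1 hev
  refine ⟨n₀, fun n hn => ?_⟩
  obtain ⟨h1, h2, h3, h4, hn2, hln, hLL, hCn, hCn2, hAn, h2n, hδn⟩ := hn₀ n hn
  have hn0 : (0 : ℝ) < n := by exact_mod_cast (by omega : 0 < n)
  have hl0 : 0 < log (n : ℝ) := by linarith
  obtain ⟨x, hx⟩ : ∃ x, x = pr n := ⟨_, rfl⟩
  obtain ⟨X, hX⟩ : ∃ X, X = pr x := ⟨_, rfl⟩
  have hnx : n ≤ x := hx ▸ (Nat.le_succ n).trans (le_pr (by omega))
  have hxX : x ≤ X := hX ▸ (Nat.le_succ x).trans (le_pr (by omega))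
  have hnxR : (n : ℝ) ≤ x := by exact_mod_cast hnx
  have hxXR : (x : ℝ) ≤ X := by exact_mod_cast hxX
  have hlx : log (n : ℝ) ≤ log x := log_le_log hn0 hnxR
  have hlX : log (n : ℝ) ≤ log X := log_le_log hn0 (hnxR.trans hxXR)
  have hxle : (x : ℝ) ≤ C * n * log n := hx ▸ hPN n (by omega)
  rw [pow_one] at hCn
  have hx0' : (0 : ℝ) < x := hn0.trans_le hnxR
  have hX0 : (0 : ℝ) < X := hx0'.trans_le hxXR
  have hxn : (x : ℝ) ≤ n * n := sq_bound hxle hn0.le hCn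
  have hlx2 : log (x : ℝ) ≤ 2 * log n := log_two_bound hn0 hx0' hxn
  have hXle : (X : ℝ) ≤ 2 * C ^ 2 * n * (log n) ^ (2 : ℕ) := by
    have h3 : (X : ℝ) ≤ C * x * log x := hX ▸ hPN x (by omega)
    have h4 : C * x * log x ≤ C * (C * n * log n) * (2 * log n) := by
      refine mul_le_mul (mul_le_mul_of_nonneg_left hxle hC.le) hlx2 (by linarith) (by positivity)
    have h5 : C * (C * n * log n) * (2 * log n) = 2 * C ^ 2 * n * (log n) ^ (2 : ℕ) := by ring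
    exact (h3.trans h4).trans h5.le
  have hXn : (X : ℝ) ≤ n * n := sq_bound hXle hn0.le hCn2
  have hlX2 : log (X : ℝ) ≤ 2 * log n := log_two_bound hn0 hX0 hXn
  have hk : ∀ k ∈ Icc 1 (n - 1), 1 ≤ k ∧ k ≤ n ∧ 1 ≤ n - k ∧ n - k ≤ n := by
    intro k hk
    rw [mem_Icc] at hk
    omega
  have h6 : ∀ j, 1 ≤ pr j := fun j => (pr_prime j).one_lt.le
  -- the five exceptional sets
  have d1 := card_br n r₁ t₁ ht1 (fun k => k) (fun k h => ⟨(hk k h).1, (hk k h).2.1⟩)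
    (fun k _ l _ h => h)
  have d2 := card_br n r₂ t₂ ht2 (fun k => n - k) (fun k h => ⟨(hk k h).2.2.1, (hk k h).2.2.2⟩)
    (fun k h l h' hkl => by
      have h4 := (hk k h).2.1
      have h5 := (hk l h').2.1
      omega)
  have e1 := hW1 (pr n) (hx ▸ h3.trans hnx)
  have e2 := hW2 (pr n) (hx ▸ h4.trans hnx)
  rw [Pool.Agent.H25.LF.primeCounting_pr n (by omega)] at e1 e2
  have e3 := bad_a hRO hC (η := η) (δ' := δ / 16) (n := n) (x := x) hθ hη hSA rfl (by positivity)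
    (h1.trans hnx) hn0 hln hxle hnxR hlx hxn h2n (fun k => pr k) (fun k _ => pr_prime k)
    (fun k h => hx ▸ pr_mono (hk k h).2.1) (fun k h l h' hkl => pr_inj (hk k h).1 (hk l h').1 hkl)
  have e4 := bad_a hRO hC (η := η) (δ' := δ / 16) (n := n) (x := x) hθ hη hSA rfl (by positivity)
    (h1.trans hnx) hn0 hln hxle hnxR hlx hxn h2n (fun k => pr (n - k)) (fun k _ => pr_prime _)
    (fun k h => hx ▸ pr_mono (hk k h).2.2.2) (fun k h l h' hkl => by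
      have h3 := pr_inj (hk k h).2.2.1 (hk l h').2.2.1 hkl
      have h4 := (hk k h).2.1
      have h5 := (hk l h').2.1
      omega)
  have e5 := bad_b hRO (A := 2 * C ^ 2) (η := η) (δ' := δ / 16) (n := n) (X := X)
    (by positivity) hc hη hSB (by positivity) (h2.trans (hnx.trans hxX)) hn0 hln hLL hXle
    (hnxR.trans hxXR) hlX hlX2 hXn h2n hAn (fun k => pr (pr (n - k))) (fun k _ => pr_prime _)
    (fun k h => hX ▸ pr_mono (hx ▸ pr_mono (hk k h).2.2.2)) (fun k h l h' hkl => by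
      have h3 := pr_inj (hk k h).2.2.1 (hk l h').2.2.1 (pr_inj (h6 _) (h6 _) hkl)
      have h4 := (hk k h).2.1
      have h5 := (hk l h').2.1
      omega)
  have d1' : (((Icc 1 (n - 1)).filter (fun k =>
      ¬ HD r₁ ((n : ℝ) ^ t₁) (pr k ^ 2 - 2))).card : ℝ) ≤ (FW t₁ r₁ + δ / 16) * n :=
    (Nat.cast_le.2 d1).trans e1
  have d2' : (((Icc 1 (n - 1)).filter (fun k =>
      ¬ HD r₂ ((n : ℝ) ^ t₂) (pr (n - k) ^ 2 - 2))).card : ℝ) ≤ (FW t₂ r₂ + δ / 16) * n :=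
    (Nat.cast_le.2 d2).trans e2
  set S := Icc 1 (n - 1) with hS
  have hcov : S ⊆ S.filter (fun k =>
      HD r₁ ((n : ℝ) ^ t₁) (pr k ^ 2 - 2) ∧ HD r₂ ((n : ℝ) ^ t₂) (pr (n - k) ^ 2 - 2) ∧
      NP ((n : ℝ) ^ η) ((n : ℝ) ^ (1 / (2 / θ))) (2 / θ) (pr k ^ 2 - 2) ∧
      NP ((n : ℝ) ^ η) ((n : ℝ) ^ (1 / (2 / θ))) (2 / θ) (pr (n - k) ^ 2 - 2) ∧
      NP ((n : ℝ) ^ η) ((n : ℝ) ^ (log (log (log n)) / (4 / c * log (log n))))
        (4 / c * log (log n) / log (log (log n))) (pr (pr (n - k)) ^ 2 - 2)) ∪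
      (S.filter (fun k => ¬ HD r₁ ((n : ℝ) ^ t₁) (pr k ^ 2 - 2)) ∪
      (S.filter (fun k => ¬ HD r₂ ((n : ℝ) ^ t₂) (pr (n - k) ^ 2 - 2)) ∪
      (S.filter (fun k =>
        ¬ NP ((n : ℝ) ^ η) ((n : ℝ) ^ (1 / (2 / θ))) (2 / θ) (pr k ^ 2 - 2)) ∪
      (S.filter (fun k =>
        ¬ NP ((n : ℝ) ^ η) ((n : ℝ) ^ (1 / (2 / θ))) (2 / θ) (pr (n - k) ^ 2 - 2)) ∪
      S.filter (fun k =>
        ¬ NP ((n : ℝ) ^ η) ((n : ℝ) ^ (log (log (log n)) / (4 / c * log (log n))))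
          (4 / c * log (log n) / log (log (log n))) (pr (pr (n - k)) ^ 2 - 2)))))) := by
    intro k hk
    rw [mem_union, mem_union, mem_union, mem_union, mem_union, mem_filter, mem_filter, mem_filter,
      mem_filter, mem_filter, mem_filter]
    by_contra hcon
    push Not at hcon
    obtain ⟨c0, c1, c2, c3, c4, c5⟩ := hcon
    exact c0 hk (c1 hk) (c2 hk) (c3 hk) (c4 hk) (c5 hk)
  have hcard := card_five hcov
  have hScard : (S.card : ℝ) = n - 1 := by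
    rw [hS, Nat.card_Icc, Nat.add_sub_cancel, Nat.cast_sub (by omega)]
    norm_num
  have e6 : (1 : ℝ) ≤ δ / 16 * n := by
    rw [div_le_iff₀ hδ] at hδn
    linarith
  have e7 : (0 : ℝ) ≤ δ * n := by positivity
  linarith

end Pool.Agent.H4.SCF
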