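import Pool.Agent.H5.SC.Targets
import Pool.Agent.H30.PF.FA

/-!
# MP_04ff0f_nt, SmallCofactors: numbers with few prime factors up to a small factor
-/

set_option autoImplicit false

open Finset Real

namespace Pool.Agent.H4.SCF

open Pool.Agent.H30.PF
open Pool.Agent.H5.SC

/-- `a` is an integer `≤ A` times a product of at most `R` primes, all larger than `y` -/
def NP (A y R : ℝ) (a : ℕ) : Prop := ∃ u v : ℕ, a = u * v ∧ (u : ℝ) ≤ A ∧
  (∀ q : ℕ, q.Prime → q ∣ v → y < q) ∧ (v.primeFactorsList.length : ℝ) ≤ R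

/-- `a` has a divisor larger than `y` with at most `r` prime factors -/
def HD (r : ℕ) (y : ℝ) (a : ℕ) : Prop :=
  ∃ d : ℕ, d ∣ a ∧ d.primeFactorsList.length ≤ r ∧ y < d

lemma NP_mono {A A' y y' R R' : ℝ} {a : ℕ} (hA : A ≤ A') (hy : y' ≤ y) (hR : R ≤ R')
    (h : NP A y R a) : NP A' y' R' a := by
  obtain ⟨u, v, h1, h2, h3, h4⟩ := h
  exact ⟨u, v, h1, h2.trans hA, fun q hq hd => hy.trans_lt (h3 q hq hd), h4.trans hR⟩

/-- a small smooth part -/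
lemma NP_of_sm (hRO : T_RO) {x y q : ℕ} {A θ : ℝ} (hx : 1 < (x : ℝ)) (hθ : 0 < θ)
    (hq : 2 ≤ q) (hqx : q ≤ x) (hy : (x : ℝ) ^ θ < (y : ℝ) + 1)
    (hs : (sm y (q ^ 2 - 2) : ℝ) ≤ A) : NP A ((x : ℝ) ^ θ) (2 / θ) (q ^ 2 - 2) := by
  have hN : q ^ 2 - 2 ≠ 0 := by
    have : 2 ^ 2 ≤ q ^ 2 := Nat.pow_le_pow_left hq 2
    omega
  obtain ⟨h1, h2, h3⟩ := hRO y (q ^ 2 - 2) hN
  have hlx : 0 < log (x : ℝ) := log_pos hx
  refine ⟨sm y (q ^ 2 - 2), rg y (q ^ 2 - 2), h1.symm, hs, ?_, ?_⟩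
  · intro l hl hd
    have hr0 : rg y (q ^ 2 - 2) ≠ 0 := by
      intro h0
      rw [h0, Nat.mul_zero] at h1
      exact hN h1.symm
    have h4 := h2 l (Nat.mem_primeFactors.2 ⟨hl, hd, hr0⟩)
    have h5 : (y : ℝ) + 1 ≤ l := by exact_mod_cast h4
    linarith
  · rw [le_div_iff₀ hθ]
    have h4 : ((y : ℝ) + 1) ^ (rg y (q ^ 2 - 2)).primeFactorsList.length ≤ (x : ℝ) ^ 2 := by
      have h5 : ((y + 1) ^ (rg y (q ^ 2 - 2)).primeFactorsList.length : ℕ) ≤ x ^ 2 :=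
        h3.trans ((Nat.sub_le _ _).trans (Nat.pow_le_pow_left hqx 2))
      exact_mod_cast h5
    have h5 : ((x : ℝ) ^ θ) ^ (rg y (q ^ 2 - 2)).primeFactorsList.length ≤ (x : ℝ) ^ 2 :=
      (pow_le_pow_left₀ (rpow_nonneg (by linarith) _) hy.le _).trans h4
    have h6 := log_le_log (pow_pos (rpow_pos_of_pos (by linarith) _) _) h5
    rw [log_pow, log_rpow (by linarith), log_pow] at h6
    have h7 : ((rg y (q ^ 2 - 2)).primeFactorsList.length : ℝ) * θ * log x ≤ 2 * log x := by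
      push_cast at h6
      linarith
    exact le_of_mul_le_mul_right h7 hlx

/-- counting the indices which give a bad prime -/
lemma card_idx {X n : ℕ} (f : ℕ → ℕ) (P : ℕ → Prop) (Q : ℕ → Prop) [DecidablePred P]
    [DecidablePred Q] (hf : ∀ k ∈ Icc 1 (n - 1), (f k).Prime)
    (hX : ∀ k ∈ Icc 1 (n - 1), f k ≤ X)
    (hinj : ∀ k ∈ Icc 1 (n - 1), ∀ l ∈ Icc 1 (n - 1), f k = f l → k = l)
    (h2 : ¬ P 2) (h : ∀ q : ℕ, q.Prime → 3 ≤ q → q ≤ X → P q → Q q) :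
    (((Icc 1 (n - 1)).filter (fun k => P (f k))).card : ℝ) ≤
    (((Icc 3 X).filter (fun q => q.Prime ∧ Q q)).card : ℝ) := by
  have h3 : ((Icc 1 (n - 1)).filter (fun k => P (f k))).card ≤
      ((Icc 3 X).filter (fun q => q.Prime ∧ Q q)).card := by
    refine Finset.card_le_card_of_injOn f ?_ ?_
    · intro k hk
      rw [mem_coe, mem_filter] at hk
      rw [mem_coe, mem_filter, mem_Icc]
      have hp := hf k hk.1
      have h4 : f k ≠ 2 := fun h5 => h2 (h5 ▸ hk.2)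
      have h5 : 3 ≤ f k := by
        have := hp.two_le
        omega
      exact ⟨⟨h5, hX k hk.1⟩, hp, h (f k) hp h5 (hX k hk.1) hk.2⟩
    · intro k hk l hl hkl
      exact hinj k (mem_filter.1 (mem_coe.1 hk)).1 l (mem_filter.1 (mem_coe.1 hl)).1 hkl
  exact_mod_cast h3

end Pool.Agent.H4.SCF
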